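import Pool.Agent.H153Z.Stat.St

/-! Convex integration along a splitting scheme: components, blocks. -/

set_option autoImplicit false

namespace Pool.Agent.H982Z.Ci

open MeasureTheory Filter Topology Set Pool.Agent.H153Z.Stat
open scoped ENNReal

/-- The component of `x` in `U`. -/
abbrev comp (U : Set Pt) (x : Pt) : Set Pt := connectedComponentIn U x

lemma comp_open {U : Set Pt} (hU : IsOpen U) (x : Pt) : IsOpen (comp U x) :=
  hU.connectedComponentIn

lemma closure_comp {U : Set Pt} {x z : Pt} (hz : z ∈ closure (comp U x)) (hzU : z ∈ U) :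
    z ∈ comp U x := by
  by_cases hx : x ∈ U
  · have h1 : IsPreconnected (insert z (comp U x)) :=
      isPreconnected_connectedComponentIn.subset_closure (subset_insert _ _)
        (insert_subset hz subset_closure)
    exact h1.subset_connectedComponentIn (mem_insert_of_mem _ (mem_connectedComponentIn hx))
      (insert_subset hzU (connectedComponentIn_subset _ _)) (mem_insert _ _)
  · have : comp U x = ∅ := connectedComponentIn_eq_empty hx
    rw [this, closure_empty] at hz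
    exact hz.elim

lemma exit_pt {U : Set Pt} (hU : IsOpen U) {x y : Pt} (hx : x ∈ U) (hy : y ∉ comp U x) :
    ∃ z ∈ segment ℝ x y, z ∈ closure (comp U x) ∧ z ∉ U := by
  by_contra hcon
  push Not at hcon
  have h1 : segment ℝ x y ⊆ comp U x := by
    refine (convex_segment x y).isPreconnected.subset_of_closure_inter_subset (comp_open hU x)
      ⟨x, left_mem_segment _ _ _, mem_connectedComponentIn hx⟩ ?_
    rintro z ⟨h1, h2⟩
    exact closure_comp h1 (hcon z h2 h1)
  exact hy (h1 (right_mem_segment _ _ _))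

lemma comp_le {U : Set Pt} (hU : IsOpen U) (f g : Pt → ℝ≥0∞)
    (h : ∀ x ∈ U, ∫⁻ y in comp U x, f y ≤ ∫⁻ y in comp U x, g y) :
    ∫⁻ y in U, f y ≤ ∫⁻ y in U, g y := by
  let A : Set (Set Pt) := {O | ∃ x ∈ U, O = comp U x}
  have hd : A.PairwiseDisjoint id := by
    rintro _ ⟨x, -, rfl⟩ _ ⟨y, -, rfl⟩ hne
    refine Set.disjoint_left.2 fun z h1 h2 => hne ?_
    exact (connectedComponentIn_eq h1).trans (connectedComponentIn_eq h2).symm
  have hc : A.Countable := hd.countable_of_isOpen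
    (by rintro _ ⟨x, -, rfl⟩; exact comp_open hU x)
    (by rintro _ ⟨x, hx, rfl⟩; exact ⟨x, mem_connectedComponentIn hx⟩)
  have hm : ∀ O ∈ A, MeasurableSet (id O) := by
    rintro _ ⟨x, -, rfl⟩; exact (comp_open hU x).measurableSet
  have hU' : U = ⋃ O ∈ A, id O := by
    ext z
    simp only [mem_iUnion, id]
    constructor
    · intro hz
      exact ⟨_, ⟨z, hz, rfl⟩, mem_connectedComponentIn hz⟩
    · rintro ⟨_, ⟨x, -, rfl⟩, hz⟩
      exact connectedComponentIn_subset _ _ hz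
  have e1 := lintegral_biUnion (μ := volume) hc hm hd f
  have e2 := lintegral_biUnion (μ := volume) hc hm hd g
  rw [← hU'] at e1 e2
  rw [e1, e2]
  refine ENNReal.tsum_le_tsum ?_
  rintro ⟨_, x, hx, rfl⟩
  exact h x hx

/-- The conclusions of the block statement, in the form used below. -/
structure Blk (O : Set Pt) (l ε δ : ℝ) (n : Fin 2 → ℝ) (σ : Pt → ℝ) (V : Set Pt)
    (c : Pt → Fin 4) : Prop where
  sub : V ⊆ O
  null : volume (O \ V) = 0
  zero : ∀ x, x ∉ O → σ x = 0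
  bd : ∀ x, |σ x| ≤ δ
  isOpen : IsOpen V
  loc : ∀ x ∈ V, ∀ T : Set Pt, IsPreconnected T → x ∈ T → T ⊆ V → ∀ y ∈ T,
    y ∈ Metric.ball x δ ∧ c y = c x ∧ σ y = σ x + ∑ j, slopes l ε n (c x) j * (y j - x j)
  int : ∀ (h : Fin 4 → ℝ) (M m : ℝ), (∀ k, 0 ≤ h k) → h 2 ≤ m → h 3 ≤ m →
    l * h 0 + (1 - l) * h 1 + δ * m ≤ M →
    ∫⁻ y in O, ENNReal.ofReal (h (c y)) ≤ ENNReal.ofReal M * volume O
  ne : O.Nonempty → (∃ x ∈ V, c x = 0) ∧ ∃ x ∈ V, c x = 1
  lip : ∀ (A : Fin 2 → ℝ) (α C : ℝ), (∀ j, |A j| ≤ C) →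
    (∀ k j, |A j + α * slopes l ε n k j| ≤ C) →
    ∀ x y : Pt, |(∑ j, A j * x j + α * σ x) - (∑ j, A j * y j + α * σ y)| ≤ 2 * C * dist x y

lemma exists_blk (hb : S_block) {O : Set Pt} (hO : IsOpen O) (hB : Bornology.IsBounded O)
    {l ε δ : ℝ} {n : Fin 2 → ℝ} (hl0 : 0 < l) (hl1 : l < 1) (hε : 0 < ε) (hδ : 0 < δ)
    (hn : n ≠ 0) : ∃ σ V c, Blk O l ε δ n σ V c := by
  obtain ⟨σ, V, c, h1, h2, h3, h4, h5, h6, h7, h8, h9, h10⟩ :=
    hb O hO hB l ε δ n hl0 hl1 hε hδ hn
  refine ⟨σ, V, c, h1, h2, h3, h4, ?_, ?_, ?_, h9, h10⟩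
  · refine isOpen_iff_forall_mem_open.2 fun x hx => ?_
    obtain ⟨G, g1, g2, g3, -⟩ := h5 x hx
    exact ⟨G, g3, g1, g2⟩
  · intro x hx T hT hxT hTV y hy
    obtain ⟨G, g1, g2, g3, g4, g5, g6⟩ := h5 x hx
    have : T ⊆ G := hT.subset_of_closure_inter_subset g1 ⟨x, hxT, g2⟩
      fun z hz => g5 ⟨hz.1, hTV hz.2⟩
    exact ⟨g4 (this hy), g6 y (this hy)⟩
  · intro h M m h0 hm2 hm3 hM
    have hm0 : 0 ≤ m := (h0 2).trans hm2
    have hsub : O ⊆ (O \ V) ∪ ((V ∩ {x | c x = 0}) ∪ ((V ∩ {x | c x = 1}) ∪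
        (V ∩ {x | c x = 2 ∨ c x = 3}))) := by
      intro y hy
      by_cases hV : y ∈ V
      · have : c y = 0 ∨ c y = 1 ∨ c y = 2 ∨ c y = 3 := by
          generalize c y = k
          fin_cases k <;> simp
        rcases this with e | e | e
        · exact Or.inr (Or.inl ⟨hV, e⟩)
        · exact Or.inr (Or.inr (Or.inl ⟨hV, e⟩))
        · exact Or.inr (Or.inr (Or.inr ⟨hV, e⟩))
      · exact Or.inl ⟨hy, hV⟩
    have key : ∀ (A : Set Pt) (b w : ℝ), 0 ≤ b → (∀ y ∈ A, h (c y) ≤ b) →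
        volume A ≤ ENNReal.ofReal w * volume O →
        ∫⁻ y in A, ENNReal.ofReal (h (c y)) ≤ ENNReal.ofReal (w * b) * volume O := by
      intro A b w hb hA hw
      calc ∫⁻ y in A, ENNReal.ofReal (h (c y)) ≤ ∫⁻ _ in A, ENNReal.ofReal b :=
            setLIntegral_mono measurable_const fun y hy => ENNReal.ofReal_le_ofReal (hA y hy)
        _ = ENNReal.ofReal b * volume A := setLIntegral_const _ _
        _ ≤ ENNReal.ofReal b * (ENNReal.ofReal w * volume O) := by gcongr
        _ = ENNReal.ofReal (w * b) * volume O := by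
            rw [← mul_assoc, ← ENNReal.ofReal_mul hb, mul_comm b w]
    have k0 := key _ (h 0) l (h0 0) (fun y hy => by rw [show c y = 0 from hy.2]) h6
    have k1 := key _ (h 1) (1 - l) (h0 1) (fun y hy => by rw [show c y = 1 from hy.2]) h7
    have k2 := key _ m δ hm0 (fun y hy => by
      rcases (show c y = 2 ∨ c y = 3 from hy.2) with e | e <;> rw [e] <;> assumption) h8
    have kn : ∫⁻ y in O \ V, ENNReal.ofReal (h (c y)) = 0 := setLIntegral_measure_zero _ _ h2
    calc ∫⁻ y in O, ENNReal.ofReal (h (c y))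
        ≤ ∫⁻ y in (O \ V) ∪ ((V ∩ {x | c x = 0}) ∪ ((V ∩ {x | c x = 1}) ∪
          (V ∩ {x | c x = 2 ∨ c x = 3}))), ENNReal.ofReal (h (c y)) := lintegral_mono_set hsub
      _ ≤ 0 + (ENNReal.ofReal (l * h 0) * volume O + (ENNReal.ofReal ((1 - l) * h 1) * volume O
          + ENNReal.ofReal (δ * m) * volume O)) := by
        refine (lintegral_union_le _ _ _).trans (add_le_add kn.le ?_)
        refine (lintegral_union_le _ _ _).trans (add_le_add k0 ?_)
        exact (lintegral_union_le _ _ _).trans (add_le_add k1 k2)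
      _ = ENNReal.ofReal (l * h 0 + ((1 - l) * h 1 + δ * m)) * volume O := by
        have a0 : 0 ≤ l * h 0 := mul_nonneg hl0.le (h0 0)
        have a1 : 0 ≤ (1 - l) * h 1 := mul_nonneg (by linarith) (h0 1)
        have a2 : 0 ≤ δ * m := mul_nonneg hδ.le hm0
        rw [ENNReal.ofReal_add a0 (add_nonneg a1 a2), ENNReal.ofReal_add a1 a2, zero_add,
          add_mul, add_mul]
      _ ≤ ENNReal.ofReal M * volume O := by
        gcongr
        linarith

end Pool.Agent.H982Z.Ci
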