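import Pool.Agent.H982Z.Ci.Step

/-! Convex integration along a splitting scheme: passing to the limit. -/

set_option autoImplicit false

namespace Pool.Agent.H982Z.Ci

open MeasureTheory Filter Topology Set Pool.Agent.H153Z.Stat
open scoped ENNReal NNReal

lemma deriv_limit {Ω : Set Pt} (hΩ : IsOpen Ω) {L : ℝ≥0} {f : ℕ → Pt → ℝ} {F g : Pt → ℝ}
    (hf : ∀ k, LipschitzWith L (f k)) (hF : LipschitzWith L F) {B : ℝ}
    (hB : ∀ k x, |f k x - F x| ≤ B) (hlim : ∀ x, Tendsto (fun k => f k x) atTop (𝓝 (F x)))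
    (v : Pt) (hg : ∀ᵐ x, x ∈ Ω → Tendsto (fun k => lineDeriv ℝ (f k) x v) atTop (𝓝 (g x))) :
    ∀ᵐ x, x ∈ Ω → lineDeriv ℝ F x v = g x := by
  classical
  let G : Pt → ℝ := Ω.indicator g
  have hT : ∀ᵐ x, Tendsto (fun k => Ω.indicator (fun x => lineDeriv ℝ (f k) x v) x) atTop
      (𝓝 (G x)) := by
    filter_upwards [hg] with x hx
    by_cases h : x ∈ Ω
    · simpa [G, h] using hx h
    · simp [G, h]
  have hGm : AEStronglyMeasurable G volume :=
    aestronglyMeasurable_of_tendsto_ae atTop (fun k =>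
      (aestronglyMeasurable_lineDeriv (hf k).continuous volume).indicator hΩ.measurableSet) hT
  have hGb : ∀ᵐ x, ‖G x‖ ≤ L * ‖v‖ := by
    filter_upwards [hT] with x hx
    refine le_of_tendsto' hx.norm fun k => ?_
    exact (norm_indicator_le_norm_self _ _).trans (norm_lineDeriv_le_of_lipschitz ℝ (hf k))
  have hGp : MemLp G ∞ volume := memLp_top_of_bound hGm _ hGb
  have hLI : LocallyIntegrable (fun x => lineDeriv ℝ F x v - G x) volume :=
    (hF.locallyIntegrable_lineDeriv v).sub (hGp.locallyIntegrable le_top)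
  have key := hΩ.ae_eq_zero_of_integral_contDiff_smul_eq_zero (hLI.locallyIntegrableOn Ω) ?_
  · filter_upwards [key] with x hx hxΩ
    have := hx hxΩ
    simp only [G, indicator_of_mem hxΩ] at this
    linarith
  intro φ hφ hc hs
  obtain ⟨D, hD⟩ := ContDiff.lipschitzWith_of_hasCompactSupport hc hφ (by simp)
  have hφi : Integrable φ volume := hφ.continuous.integrable_of_hasCompactSupport hc
  have t1 : Tendsto (fun k => ∫ x, lineDeriv ℝ (f k) x v * φ x) atTop (𝓝 (∫ x, G x * φ x)) := by
    refine tendsto_integral_of_dominated_convergence (fun x => (L * ‖v‖) * ‖φ x‖)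
      (fun k => (aestronglyMeasurable_lineDeriv (hf k).continuous volume).mul
        hφ.continuous.aestronglyMeasurable) (hφi.norm.const_mul _) (fun k => ?_) ?_
    · refine Eventually.of_forall fun x => ?_
      rw [norm_mul]
      exact mul_le_mul_of_nonneg_right (norm_lineDeriv_le_of_lipschitz ℝ (hf k)) (norm_nonneg _)
    · filter_upwards [hg] with x hx
      by_cases h : x ∈ Ω
      · simp only [G, indicator_of_mem h]
        exact (hx h).mul_const _
      · have : φ x = 0 := image_eq_zero_of_notMem_tsupport fun h' => h (hs h')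
        simp [this]
  have hd : ∀ x, lineDeriv ℝ φ x (-v) = fderiv ℝ φ x (-v) := fun x =>
    (hφ.differentiable (by simp)).differentiableAt.lineDeriv_eq_fderiv
  have hψc : Continuous fun x => fderiv ℝ φ x (-v) :=
    (hφ.continuous_fderiv (by simp)).clm_apply continuous_const
  have hψs : HasCompactSupport fun x => fderiv ℝ φ x (-v) := hc.fderiv_apply ℝ (-v)
  have t2 : Tendsto (fun k => ∫ x, lineDeriv ℝ φ x (-v) * f k x) atTop
      (𝓝 (∫ x, lineDeriv ℝ φ x (-v) * F x)) := by
    simp only [hd]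
    refine tendsto_integral_of_dominated_convergence
      (fun x => ‖fderiv ℝ φ x (-v)‖ * (‖F x‖ + B))
      (fun k => (hψc.mul (hf k).continuous).aestronglyMeasurable) ?_ (fun k => ?_) ?_
    · exact (hψc.norm.mul (hF.continuous.norm.add continuous_const)).integrable_of_hasCompactSupport
        hψs.norm.mul_right
    · refine Eventually.of_forall fun x => ?_
      rw [norm_mul]
      refine mul_le_mul_of_nonneg_left ?_ (norm_nonneg _)
      have := hB k x
      rw [Real.norm_eq_abs, Real.norm_eq_abs]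
      have h2 := abs_add_le (F x) (f k x - F x)
      rw [add_sub_cancel] at h2
      linarith
    · exact Eventually.of_forall fun x => (hlim x).const_mul _
  have e : ∫ x, lineDeriv ℝ F x v * φ x = ∫ x, G x * φ x := by
    rw [hF.integral_lineDeriv_mul_eq hD hc]
    refine tendsto_nhds_unique t2 ?_
    simpa only [(hf _).integral_lineDeriv_mul_eq hD hc] using t1
  have i1 : Integrable (fun x => lineDeriv ℝ F x v * φ x) volume :=
    hφi.mul_of_top_right (hF.memLp_lineDeriv v)
  have i2 : Integrable (fun x => G x * φ x) volume := hφi.mul_of_top_right hGp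
  have : ∀ x, φ x • (lineDeriv ℝ F x v - G x) = lineDeriv ℝ F x v * φ x - G x * φ x := by
    intro x; simp only [smul_eq_mul]; ring
  simp only [this]
  rw [integral_sub i1 i2, e, sub_self]

lemma ae_summable {μ : Measure Pt} {f : ℕ → Pt → ℝ} (h0 : ∀ k x, 0 ≤ f k x)
    (hm : ∀ k, AEMeasurable (f k) μ) {M ρ : ℝ≥0∞} (hM : M ≠ ∞) (hρ : ρ < 1)
    (hb : ∀ k, ∫⁻ x, ENNReal.ofReal (f k x) ∂μ ≤ M * ρ ^ k) :
    ∀ᵐ x ∂μ, Summable fun k => f k x := by
  have hm' : ∀ k, AEMeasurable (fun x => ENNReal.ofReal (f k x)) μ := fun k =>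
    (hm k).ennreal_ofReal
  have h1 : ∫⁻ x, ∑' k, ENNReal.ofReal (f k x) ∂μ ≠ ∞ := by
    rw [lintegral_tsum hm']
    refine ne_top_of_le_ne_top ?_ (ENNReal.tsum_le_tsum hb)
    rw [ENNReal.tsum_mul_left, ENNReal.tsum_geometric]
    exact ENNReal.mul_ne_top hM (ENNReal.inv_ne_top.2 (tsub_pos_of_lt hρ).ne')
  filter_upwards [ae_lt_top' (AEMeasurable.tsum hm') h1] with x hx
  have := ENNReal.summable_toReal hx.ne
  simpa only [ENNReal.toReal_ofReal (h0 _ _)] using this

variable {ι S : Type} [Fintype ι] {D : Sch ι S} {Ω : Set Pt}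

lemma Stage.aemeas (T : Stage D Ω) {E : Type} [TopologicalSpace E] [MeasurableSpace E]
    [BorelSpace E] (φ : S → E) : AEMeasurable (fun x => φ (T.st x)) (volume.restrict Ω) := by
  rw [Measure.restrict_congr_set T.aeq]
  refine ContinuousOn.aemeasurable ?_ T.hopen.measurableSet
  intro x hx
  refine ContinuousAt.continuousWithinAt ?_
  have : (fun y => φ (T.st y)) =ᶠ[𝓝 x] fun _ => φ (T.st x) := by
    filter_upwards [(comp_open T.hopen x).mem_nhds (mem_connectedComponentIn hx)] with y hy
    rw [(T.hloc x hx y hy).1]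
  exact continuousAt_const.congr this.symm

lemma Stage.lineDeriv_eq (T : Stage D Ω) {x : Pt} (hx : x ∈ T.U) (r : ι) (j : Fin 2) :
    lineDeriv ℝ (fun y => T.W y r) x (EuclideanSpace.single j 1) = D.val (T.st x) r j := by
  have h1 : (fun y => T.W y r) =ᶠ[𝓝 x]
      fun y => T.W x r + ∑ i, D.val (T.st x) r i * (y i - x i) := by
    filter_upwards [(comp_open T.hopen x).mem_nhds (mem_connectedComponentIn hx)] with y hy
    exact (T.hloc x hx y hy).2 r
  rw [h1.lineDeriv_eq]
  unfold lineDeriv
  have : (fun t : ℝ => T.W x r + ∑ i, D.val (T.st x) r i *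
      ((x + t • EuclideanSpace.single j (1 : ℝ) : Pt) i - x i)) =
      fun t => T.W x r + D.val (T.st x) r j * t := by
    funext t
    fin_cases j <;> simp
  rw [this]
  simp

theorem exists_limit (hΩ : IsOpen Ω) (hB : Bornology.IsBounded Ω) (T : ℕ → Stage D Ω)
    (hT : ∀ k, Step (T k) (T (k + 1)) (1 / 2 / 2 ^ k)) {K : Set (ι → Fin 2 → ℝ)}
    (hK : IsClosed K) (hKs : ∀ s, ∃ A ∈ K, ∀ r j, |D.val s r j - A r j| ≤ D.C * D.ψ s) :
    ∃ W : Pt → ι → ℝ, (∃ L, LipschitzWith L W) ∧ (∀ᵐ x ∂(volume.restrict Ω), Jac W x ∈ K) ∧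
      ∀ k x, x ∉ (T k).U → W x = (T k).W x := by
  have hdist : ∀ x r k, dist ((T k).W x r) ((T (k + 1)).W x r) ≤ 1 / 2 / 2 ^ k := by
    intro x r k
    rw [dist_comm, Real.dist_eq]
    exact (hT k).close x r
  have hcau : ∀ x r, ∃ w, Tendsto (fun k => (T k).W x r) atTop (𝓝 w) := fun x r =>
    cauchySeq_tendsto_of_complete (cauchySeq_of_le_geometric_two (hdist x r))
  choose W hW using hcau
  have hclose : ∀ r k x, |(T k).W x r - W x r| ≤ 1 := by
    intro r k x
    have := dist_le_of_le_geometric_two_of_tendsto (hdist x r) (hW x r) k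
    rw [Real.dist_eq] at this
    exact this.trans (div_le_self zero_le_one (one_le_pow₀ one_le_two))
  let L : ℝ≥0 := (2 * D.C).toNNReal
  have hLk : ∀ r k, LipschitzWith L fun x => (T k).W x r := fun r k =>
    LipschitzWith.of_dist_le' fun x y => (T k).hlip r x y
  have hL : ∀ r, LipschitzWith L fun x => W x r := fun r =>
    LipschitzWith.of_dist_le' fun x y =>
      le_of_tendsto' (((hW x r).sub (hW y r)).abs) fun k => (T k).hlip r x y
  have hLW : LipschitzWith L W := by
    refine LipschitzWith.of_dist_le_mul fun x y => ?_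
    exact (dist_pi_le_iff (by positivity)).2 fun r => (hL r).dist_le_mul x y
  refine ⟨W, ⟨L, hLW⟩, ?_, ?_⟩
  · let ρ : ℝ≥0∞ := ENNReal.ofReal ((1 + D.q) / 2)
    have hρ : ρ < 1 := ENNReal.ofReal_lt_one.2 (by linarith [D.hq1])
    let M : ℝ≥0∞ := ENNReal.ofReal D.C * volume Ω
    have hM : M ≠ ∞ := ENNReal.mul_ne_top ENNReal.ofReal_ne_top hB.measure_lt_top.ne
    have hI : ∀ k, ∫⁻ x in Ω, ENNReal.ofReal (D.ψ ((T k).st x)) ≤ M * ρ ^ k := by
      intro k
      induction k with
      | zero =>
        rw [pow_zero, mul_one]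
        exact (lintegral_mono fun x => ENNReal.ofReal_le_ofReal (D.hψ _).2).trans_eq
          (setLIntegral_const _ _)
      | succ k ih =>
        refine (hT k).iψ.trans ?_
        calc ρ * ∫⁻ x in Ω, ENNReal.ofReal (D.ψ ((T k).st x)) ≤ ρ * (M * ρ ^ k) := by gcongr
          _ = M * ρ ^ (k + 1) := by ring
    have s1 := ae_summable (f := fun k x => D.ψ ((T k).st x)) (fun k x => (D.hψ _).1.le)
      (fun k => (T k).aemeas D.ψ) hM hρ hI
    have s2 := ae_summable (f := fun k x => ‖D.val ((T (k + 1)).st x) - D.val ((T k).st x)‖)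
      (M := ENNReal.ofReal (2 * D.C + 1) * M) (ρ := ρ) (fun k x => norm_nonneg _)
      (fun k => (((T (k + 1)).aemeas D.val).sub ((T k).aemeas D.val)).norm)
      (ENNReal.mul_ne_top ENNReal.ofReal_ne_top hM) hρ
      (fun k => (hT k).idf.trans (by rw [mul_assoc]; gcongr; exact hI k))
    let G : Pt → ι → Fin 2 → ℝ := fun x => limUnder atTop fun k => D.val ((T k).st x)
    have s3 : ∀ᵐ x ∂(volume.restrict Ω),
        Tendsto (fun k => D.val ((T k).st x)) atTop (𝓝 (G x)) := by
      filter_upwards [s2] with x hx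
      refine CauchySeq.tendsto_limUnder (cauchySeq_of_summable_dist ?_)
      simpa only [dist_comm, dist_eq_norm'] using hx
    have s4 : ∀ᵐ x ∂(volume.restrict Ω), G x ∈ K := by
      filter_upwards [s1, s3] with x h1 h3
      choose A hA hA' using hKs
      refine hK.mem_of_tendsto (f := fun k => A ((T k).st x)) (b := atTop) ?_
        (Eventually.of_forall fun k => hA _)
      have h4 : Tendsto (fun k => D.val ((T k).st x) - A ((T k).st x)) atTop (𝓝 0) := by
        refine squeeze_zero_norm (a := fun k => D.C * D.ψ ((T k).st x)) (fun k => ?_) ?_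
        · have hn : 0 ≤ D.C * D.ψ ((T k).st x) := mul_nonneg D.hC0 (D.hψ _).1.le
          exact (pi_norm_le_iff_of_nonneg hn).2 fun r => (pi_norm_le_iff_of_nonneg hn).2
            fun j => hA' _ r j
        · simpa using h1.tendsto_atTop_zero.const_mul D.C
      simpa using h3.sub h4
    have s5 : ∀ᵐ x, ∀ k, x ∈ Ω → x ∈ (T k).U := by
      rw [ae_all_iff]
      intro k
      refine (measure_eq_zero_iff_ae_notMem.1 (T k).hnull).mono fun y hy hy' => ?_
      by_contra h
      exact hy ⟨hy', h⟩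
    have s6 : ∀ᵐ x, ∀ r j, x ∈ Ω →
        lineDeriv ℝ (fun y => W y r) x (EuclideanSpace.single j 1) = G x r j := by
      rw [ae_all_iff]
      intro r
      rw [ae_all_iff]
      intro j
      refine deriv_limit hΩ (hLk r) (hL r) (hclose r) (fun x => hW x r) _ ?_
      filter_upwards [(ae_restrict_iff' hΩ.measurableSet).1 s3, s5] with x h3 h5 hx
      simp only [fun k => (T k).lineDeriv_eq (h5 k hx) r j]
      exact tendsto_pi_nhds.1 (tendsto_pi_nhds.1 (h3 hx) r) j
    rw [ae_restrict_iff' hΩ.measurableSet] at s4 ⊢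
    filter_upwards [s4, s6, hLW.ae_differentiableAt (μ := volume)] with x h4 h6 hd hx
    have : Jac W x = G x := by
      funext r j
      rw [← h6 r j hx, (differentiableAt_pi.1 hd r).lineDeriv_eq_fderiv, fderiv_apply hd r]
      rfl
    rw [this]
    exact h4 hx
  · intro k x hx
    have h1 : ∀ m, x ∉ (T (k + m)).U ∧ (T (k + m)).W x = (T k).W x := by
      intro m
      induction m with
      | zero => exact ⟨hx, rfl⟩
      | succ m ih =>
        exact ⟨fun h => ih.1 ((hT (k + m)).sub h), ((hT (k + m)).off x ih.1).trans ih.2⟩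
    funext r
    refine tendsto_nhds_unique (hW x r) (tendsto_const_nhds.congr' ?_)
    filter_upwards [eventually_ge_atTop k] with m hm
    obtain ⟨m, rfl⟩ := Nat.exists_eq_add_of_le hm
    rw [(h1 m).2]

end Pool.Agent.H982Z.Ci
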