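import Pool.Agent.H982Z.Ci.Lim

/-! Convex integration along a splitting scheme: the limit is nowhere continuously
differentiable. -/

set_option autoImplicit false

namespace Pool.Agent.H982Z.Ci

open MeasureTheory Filter Topology Set Pool.Agent.H153Z.Stat
open scoped ENNReal NNReal

variable {ι S : Type} [Fintype ι] {D : Sch ι S} {Ω : Set Pt}

lemma reach (T : ℕ → Stage D Ω) (hT : ∀ k, Step (T k) (T (k + 1)) (1 / 2 / 2 ^ k))
    {k : ℕ} {x : Pt} (hx : x ∈ (T k).U) {t : S}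
    (ht : Relation.ReflTransGen (fun a b => b = D.nx a 0 ∨ b = D.nx a 1) ((T k).st x) t) :
    ∃ m, ∃ y ∈ (T m).U, comp (T m).U y ⊆ comp (T k).U x ∧ (T m).st y = t := by
  induction ht with
  | refl => exact ⟨k, x, hx, subset_rfl, rfl⟩
  | @tail b c _ hbc ih =>
    obtain ⟨m, y, hy, h1, h2⟩ := ih
    have : ∃ i : Fin 4, (i = 0 ∨ i = 1) ∧ c = D.nx b i := by
      rcases hbc with h | h
      · exact ⟨0, Or.inl rfl, h⟩
      · exact ⟨1, Or.inr rfl, h⟩
    obtain ⟨i, hi, rfl⟩ := this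
    obtain ⟨z, hz, hz1, hz2⟩ := (hT m).reach y hy i hi
    refine ⟨m + 1, z, hz, ?_, by rw [hz2, h2]⟩
    refine (connectedComponentIn_mono _ (hT m).sub).trans ?_
    rw [← connectedComponentIn_eq hz1]
    exact h1

lemma slope (T : Stage D Ω) {W : Pt → ι → ℝ} (hW : ∀ x, x ∉ T.U → W x = T.W x) {κ : Type}
    [Fintype κ] (e : κ → ι) {x₀ y : Pt} {ρ θ : ℝ} (A : Pt →L[ℝ] κ → ℝ) (hy : y ∈ T.U)
    (hc : comp T.U y ⊆ Metric.ball x₀ ρ)
    (hmv : ∀ z ∈ Metric.closedBall x₀ ρ, ∀ z' ∈ Metric.closedBall x₀ ρ,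
      ‖(fun k => W z' (e k)) - (fun k => W z (e k)) - A (z' - z)‖ ≤ θ * ‖z' - z‖)
    (k : κ) (j : Fin 2) : |D.val (T.st y) (e k) j - A (EuclideanSpace.single j 1) k| ≤ θ := by
  set v : Pt := EuclideanSpace.single j 1 with hv
  have hv1 : ‖v‖ = 1 := by simp [hv]
  have hyb : dist y x₀ < ρ := hc (mem_connectedComponentIn hy)
  have hρ : 0 < ρ := dist_nonneg.trans_lt hyb
  have ex : ∀ σ : ℝ, |σ| = 1 → ∃ t : ℝ, 0 < t ∧ y + (σ * t) • v ∈ closure (comp T.U y) ∧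
      y + (σ * t) • v ∉ T.U := by
    intro σ hσ
    have hout : y + (σ * (2 * ρ)) • v ∉ comp T.U y := by
      intro h
      have h1 : dist (y + (σ * (2 * ρ)) • v) x₀ < ρ := hc h
      have h2 : dist (y + (σ * (2 * ρ)) • v) y = 2 * ρ := by
        rw [dist_eq_norm, add_sub_cancel_left, norm_smul, hv1, Real.norm_eq_abs, abs_mul, hσ,
          abs_of_pos (by positivity)]
        ring
      have h3 := dist_triangle_right (y + (σ * (2 * ρ)) • v) y x₀
      linarith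
    obtain ⟨z, z1, z2, z3⟩ := exit_pt T.hopen hy hout
    rw [segment_eq_image'] at z1
    obtain ⟨s, hs, rfl⟩ := z1
    simp only [add_sub_cancel_left, smul_smul] at z2 z3
    have e1 : s * (σ * (2 * ρ)) = σ * (s * (2 * ρ)) := by ring
    rw [e1] at z2 z3
    refine ⟨s * (2 * ρ), ?_, z2, z3⟩
    rcases hs.1.eq_or_lt with h | h
    · rw [← h] at z3
      simp at z3
      exact (z3 hy).elim
    · positivity
  obtain ⟨t₁, p1, c1, n1⟩ := ex 1 abs_one
  obtain ⟨t₂, p2, c2, n2⟩ := ex (-1) (by simp)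
  have hcl : closure (comp T.U y) ⊆ Metric.closedBall x₀ ρ :=
    closure_minimal (hc.trans Metric.ball_subset_closedBall) Metric.isClosed_closedBall
  have h := hmv _ (hcl c2) _ (hcl c1)
  have hd : y + (1 * t₁) • v - (y + (-1 * t₂) • v) = (t₁ + t₂) • v := by
    module
  rw [hd, norm_smul, hv1, mul_one, Real.norm_eq_abs, abs_of_pos (by positivity), map_smul] at h
  have h' := (norm_le_pi_norm _ k).trans h
  simp only [Pi.sub_apply, Pi.smul_apply, smul_eq_mul, Real.norm_eq_abs, hW _ n1, hW _ n2,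
    T.clos hy c1, T.clos hy c2] at h'
  have e2 : ∀ t : ℝ, ∑ i, D.val (T.st y) (e k) i * ((y + t • v : Pt) i - y i) =
      D.val (T.st y) (e k) j * t := by
    intro t
    rw [hv]
    fin_cases j <;> simp
  rw [e2, e2] at h'
  have e3 : T.W y (e k) + D.val (T.st y) (e k) j * (1 * t₁) -
      (T.W y (e k) + D.val (T.st y) (e k) j * (-1 * t₂)) - (t₁ + t₂) * A v k =
      (D.val (T.st y) (e k) j - A v k) * (t₁ + t₂) := by ring
  rw [e3, abs_mul, abs_of_pos (add_pos p1 p2)] at h'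
  exact le_of_mul_le_mul_right h' (add_pos p1 p2)

theorem nowhere (T : ℕ → Stage D Ω) (hT : ∀ k, Step (T k) (T (k + 1)) (1 / 2 / 2 ^ k))
    {W : Pt → ι → ℝ} (hW : ∀ k x, x ∉ (T k).U → W x = (T k).W x) {κ : Type} [Fintype κ]
    (e : κ → ι) {η : ℝ} (hη : 0 < η)
    (hr : ∀ s, ∃ t₁ t₂, Relation.ReflTransGen (fun a b => b = D.nx a 0 ∨ b = D.nx a 1) s t₁ ∧
      Relation.ReflTransGen (fun a b => b = D.nx a 0 ∨ b = D.nx a 1) s t₂ ∧
      ∃ k j, η ≤ |D.val t₁ (e k) j - D.val t₂ (e k) j|)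
    {O : Set Pt} (hO : IsOpen O) (hne : O.Nonempty) (hOΩ : O ⊆ Ω) :
    ¬ ContDiffOn ℝ 1 (fun x k => W x (e k)) O := by
  intro hC
  obtain ⟨x₀, hx₀⟩ := hne
  set u : Pt → κ → ℝ := fun x k => W x (e k) with hu
  have hcont : ContinuousAt (fderiv ℝ u) x₀ :=
    (hC.continuousOn_fderiv_of_isOpen hO le_rfl).continuousAt (hO.mem_nhds hx₀)
  have hev : ∀ᶠ y in 𝓝 x₀, y ∈ O ∧ ‖fderiv ℝ u y - fderiv ℝ u x₀‖ ≤ η / 4 := by
    refine Eventually.and (hO.mem_nhds hx₀) ?_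
    filter_upwards [hcont (Metric.closedBall_mem_nhds _ (show 0 < η / 4 by positivity))] with y hy
    rwa [mem_preimage, Metric.mem_closedBall, dist_eq_norm] at hy
  obtain ⟨ρ, hρ, hball⟩ := Metric.nhds_basis_closedBall.eventually_iff.1 hev
  have hmv : ∀ z ∈ Metric.closedBall x₀ ρ, ∀ z' ∈ Metric.closedBall x₀ ρ,
      ‖u z' - u z - fderiv ℝ u x₀ (z' - z)‖ ≤ η / 4 * ‖z' - z‖ := fun z hz z' hz' =>
    (convex_closedBall x₀ ρ).norm_image_sub_le_of_norm_fderiv_le'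
      (fun y hy => (hC.differentiableOn (by simp)).differentiableAt (hO.mem_nhds (hball hy).1))
      (fun y hy => (hball hy).2) hz hz'
  obtain ⟨k, hk⟩ := exists_pow_lt_of_lt_one hρ (show (1 / 2 : ℝ) < 1 by norm_num)
  have hx : ∃ x ∈ (T (k + 1)).U, x ∈ Metric.ball x₀ (ρ / 2) := by
    by_contra hcon
    push Not at hcon
    have h1 : Metric.ball x₀ (ρ / 2) ⊆ Ω \ (T (k + 1)).U := fun x hx =>
      ⟨hOΩ (hball (Metric.ball_subset_closedBall
        (Metric.ball_subset_ball (by linarith) hx))).1, fun h => hcon x h hx⟩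
    exact (Metric.measure_ball_pos volume x₀ (by positivity)).ne'
      (measure_mono_null h1 (T (k + 1)).hnull)
  obtain ⟨x, hx, hxb⟩ := hx
  have hc : comp (T (k + 1)).U x ⊆ Metric.ball x₀ ρ := by
    intro y hy
    have h1 : dist y x < 1 / 2 / 2 ^ k := (hT k).small x hx hy
    have h2 : dist x x₀ < ρ / 2 := hxb
    have h3 : (1 / 2 / 2 ^ k : ℝ) = (1 / 2) ^ k / 2 := by rw [one_div_pow]; ring
    have h4 := dist_triangle y x x₀
    show dist y x₀ < ρ
    linarith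
  obtain ⟨t₁, t₂, r1, r2, i, j, hij⟩ := hr ((T (k + 1)).st x)
  obtain ⟨m₁, y₁, a1, b1, rfl⟩ := reach T hT hx r1
  obtain ⟨m₂, y₂, a2, b2, rfl⟩ := reach T hT hx r2
  have s1 := slope (T m₁) (hW m₁) e (fderiv ℝ u x₀) a1 (b1.trans hc) hmv i j
  have s2 := slope (T m₂) (hW m₂) e (fderiv ℝ u x₀) a2 (b2.trans hc) hmv i j
  have := abs_sub_le (D.val ((T m₁).st y₁) (e i) j) (fderiv ℝ u x₀ (EuclideanSpace.single j 1) i)
    (D.val ((T m₂).st y₂) (e i) j)
  rw [abs_sub_comm] at s2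
  linarith

theorem thm_ci (hb : S_block) : S_ci := by
  intro ι κ S _ _ e val ψ c₀ c₁ K C q η hK hq0 hq1 hη hC hψ hKs hsp hr hS Ω hΩ hB
  obtain ⟨s₀⟩ := hS
  have hC0 : 0 ≤ C := (hψ s₀).1.le.trans (hψ s₀).2
  choose l a n hl0 hl1 hn h0 h1 h01 hd hev using hsp
  have hε : ∀ s, ∃ (ε : ℝ) (t₂ t₃ : S), 0 < ε ∧ ψ t₂ ≤ ψ s ∧ ψ t₃ ≤ ψ s ∧
      (∀ r j, val t₂ r j = val s r j + ε * a s r * ![-n s 1, n s 0] j) ∧
      (∀ r j, val t₃ r j = val s r j + -ε * a s r * ![-n s 1, n s 0] j) ∧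
      ∀ r j, |ε * a s r * ![-n s 1, n s 0] j| ≤ ψ s := by
    intro s
    have e1 := hev s
    have e2 := (show Tendsto (fun ε : ℝ => -ε) (𝓝 0) (𝓝 0) by
      simpa using (continuous_neg.tendsto (0 : ℝ))).eventually e1
    have e3 : ∀ᶠ ε in 𝓝 (0 : ℝ), ∀ r j, |ε * a s r * ![-n s 1, n s 0] j| ≤ ψ s := by
      refine eventually_all.2 fun r => eventually_all.2 fun j => ?_
      have : Tendsto (fun ε : ℝ => |ε * a s r * ![-n s 1, n s 0] j|) (𝓝 0) (𝓝 0) :=
        Continuous.tendsto' (by fun_prop) _ _ (by simp)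
      exact this.eventually (eventually_le_nhds (hψ s).1)
    obtain ⟨ε, ⟨⟨t₂, p2, q2⟩, ⟨t₃, p3, q3⟩, h3⟩, hε⟩ :=
      (((e1.and (e2.and e3)).filter_mono (nhdsWithin_le_nhds (s := Ioi 0))).and
        self_mem_nhdsWithin).exists
    exact ⟨ε, t₂, t₃, hε, p2, p3, q2, q3, h3⟩
  choose ε t₂ t₃ hε p2 p3 q2 q3 hε' using hε
  have nb : ∀ (s t : S) (w b : ℝ), 0 < w → 0 ≤ b → (∀ r j, w * |val t r j - val s r j| ≤ b) →
      w * ‖val t - val s‖ ≤ b := by
    intro s t w b hw hb' h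
    rw [mul_comm, ← le_div_iff₀ hw]
    have hn' : 0 ≤ b / w := by positivity
    refine (pi_norm_le_iff_of_nonneg hn').2 fun r => (pi_norm_le_iff_of_nonneg hn').2 fun j => ?_
    rw [le_div_iff₀ hw, mul_comm]
    exact h r j
  let D : Sch ι S :=
    { val := val, ψ := ψ, C := C, q := q, nx := fun s => ![c₀ s, c₁ s, t₂ s, t₃ s], l := l,
      ε := ε, a := a, n := n, hq0 := hq0, hq1 := hq1, hC0 := hC0, hC := hC, hψ := hψ,
      hl0 := hl0, hl1 := hl1, hε := hε, hn := hn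
      hval := by
        intro s k r j
        fin_cases k
        · simp [slopes, h0]; ring
        · simp [slopes, h1]; ring
        · simp only [slopes, Fin.reduceFinMk, Matrix.cons_val, q2]; ring
        · simp only [slopes, Fin.reduceFinMk, Matrix.cons_val, q3]; ring
      hψ01 := h01, hψ2 := p2, hψ3 := p3
      hd0 := fun s => nb s (c₀ s) _ _ (hl0 s) (mul_nonneg hC0 (hψ s).1.le) fun r j => by
        rw [h0, add_sub_cancel_left, mul_assoc, abs_mul, abs_of_pos (sub_pos.2 (hl1 s)),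
          ← mul_assoc]
        exact hd s r j
      hd1 := fun s => nb s (c₁ s) _ _ (sub_pos.2 (hl1 s)) (mul_nonneg hC0 (hψ s).1.le)
        fun r j => by
          rw [h1, sub_sub_cancel_left, abs_neg, mul_assoc, abs_mul, abs_of_pos (hl0 s),
            ← mul_assoc, mul_comm (1 - l s)]
          exact hd s r j
      hd2 := fun s => by
        have := nb s (t₂ s) 1 _ one_pos (hψ s).1.le fun r j => by
          rw [q2, add_sub_cancel_left, one_mul]; exact hε' s r j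
        rwa [one_mul] at this
      hd3 := fun s => by
        have := nb s (t₃ s) 1 _ one_pos (hψ s).1.le fun r j => by
          rw [q3, add_sub_cancel_left, one_mul, neg_mul, neg_mul, abs_neg]; exact hε' s r j
        rwa [one_mul] at this }
  obtain ⟨T, hT⟩ := exists_seq (D := D) hb hΩ hB s₀
  obtain ⟨W, w1, w2, w3⟩ := exists_limit hΩ hB T hT hK hKs
  exact ⟨W, w1, w2, fun O hO hne hOΩ => nowhere T hT w3 e hη hr hO hne hOΩ⟩

end Pool.Agent.H982Z.Ci
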