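import Pool.Agent.H982Z.Ci.Base

/-! Convex integration along a splitting scheme: stages and the inductive step. -/

set_option autoImplicit false

namespace Pool.Agent.H982Z.Ci

open MeasureTheory Filter Topology Set Pool.Agent.H153Z.Stat
open scoped ENNReal

/-- A splitting scheme with all choices made. -/
structure Sch (ι S : Type) [Fintype ι] where
  val : S → ι → Fin 2 → ℝ
  ψ : S → ℝ
  C : ℝ
  q : ℝ
  nx : S → Fin 4 → S
  l : S → ℝ
  ε : S → ℝ
  a : S → ι → ℝ
  n : S → Fin 2 → ℝ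
  hq0 : 0 ≤ q
  hq1 : q < 1
  hC0 : 0 ≤ C
  hC : ∀ s r j, |val s r j| ≤ C
  hψ : ∀ s, 0 < ψ s ∧ ψ s ≤ C
  hl0 : ∀ s, 0 < l s
  hl1 : ∀ s, l s < 1
  hε : ∀ s, 0 < ε s
  hn : ∀ s, n s ≠ 0
  hval : ∀ s k r j, val (nx s k) r j = val s r j + a s r * slopes (l s) (ε s) (n s) k j
  hψ01 : ∀ s, l s * ψ (nx s 0) + (1 - l s) * ψ (nx s 1) ≤ q * ψ s
  hψ2 : ∀ s, ψ (nx s 2) ≤ ψ s
  hψ3 : ∀ s, ψ (nx s 3) ≤ ψ s
  hd0 : ∀ s, l s * ‖val (nx s 0) - val s‖ ≤ C * ψ s
  hd1 : ∀ s, (1 - l s) * ‖val (nx s 1) - val s‖ ≤ C * ψ s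
  hd2 : ∀ s, ‖val (nx s 2) - val s‖ ≤ ψ s
  hd3 : ∀ s, ‖val (nx s 3) - val s‖ ≤ ψ s

variable {ι S : Type} [Fintype ι]

/-- A piecewise affine approximation. -/
structure Stage (D : Sch ι S) (Ω : Set Pt) where
  W : Pt → ι → ℝ
  U : Set Pt
  st : Pt → S
  hopen : IsOpen U
  hU : U ⊆ Ω
  hnull : volume (Ω \ U) = 0
  hlip : ∀ r x y, |W x r - W y r| ≤ 2 * D.C * dist x y
  hloc : ∀ x ∈ U, ∀ y ∈ comp U x,
    st y = st x ∧ ∀ r, W y r = W x r + ∑ j, D.val (st x) r j * (y j - x j)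

variable {D : Sch ι S} {Ω : Set Pt}

/-- The relation between consecutive stages. -/
structure Step (T T' : Stage D Ω) (δ : ℝ) : Prop where
  sub : T'.U ⊆ T.U
  off : ∀ x, x ∉ T.U → T'.W x = T.W x
  close : ∀ x r, |T'.W x r - T.W x r| ≤ δ
  small : ∀ x ∈ T'.U, comp T'.U x ⊆ Metric.ball x δ
  iψ : ∫⁻ x in Ω, ENNReal.ofReal (D.ψ (T'.st x)) ≤
    ENNReal.ofReal ((1 + D.q) / 2) * ∫⁻ x in Ω, ENNReal.ofReal (D.ψ (T.st x))
  idf : ∫⁻ x in Ω, ENNReal.ofReal ‖D.val (T'.st x) - D.val (T.st x)‖ ≤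
    ENNReal.ofReal (2 * D.C + 1) * ∫⁻ x in Ω, ENNReal.ofReal (D.ψ (T.st x))
  reach : ∀ x ∈ T.U, ∀ k : Fin 4, (k = 0 ∨ k = 1) →
    ∃ y ∈ T'.U, y ∈ comp T.U x ∧ T'.st y = D.nx (T.st x) k

lemma Stage.cont (T : Stage D Ω) (r : ι) : Continuous fun x => T.W x r := by
  have : LipschitzWith (2 * D.C).toNNReal fun x => T.W x r :=
    LipschitzWith.of_dist_le' fun x y => T.hlip r x y
  exact this.continuous

lemma Stage.clos (T : Stage D Ω) {x z : Pt} (hx : x ∈ T.U) (hz : z ∈ closure (comp T.U x))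
    (r : ι) : T.W z r = T.W x r + ∑ j, D.val (T.st x) r j * (z j - x j) := by
  have hc : IsClosed {z : Pt | T.W z r = T.W x r + ∑ j, D.val (T.st x) r j * (z j - x j)} :=
    isClosed_eq (T.cont r) (by fun_prop)
  exact closure_minimal (fun y hy => (T.hloc x hx y hy).2 r) hc hz

lemma Stage.aeq (T : Stage D Ω) : Ω =ᵐ[volume] T.U :=
  ae_eq_set.2 ⟨T.hnull, by rw [sdiff_eq_empty.2 T.hU]; exact measure_empty⟩

lemma glue_lip {U : Set Pt} (hU : IsOpen U) (f : Pt → ℝ) (L : ℝ)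
    (h1 : ∀ x y, x ∉ U → y ∉ U → |f x - f y| ≤ L * dist x y)
    (h2 : ∀ x ∈ U, ∀ z ∈ closure (comp U x), |f x - f z| ≤ L * dist x z) (x y : Pt) :
    |f x - f y| ≤ L * dist x y := by
  have tri : ∀ x y z : Pt, z ∈ segment ℝ x y → |f x - f z| ≤ L * dist x z →
      |f z - f y| ≤ L * dist z y → |f x - f y| ≤ L * dist x y := by
    intro x y z hz a b
    rw [← dist_add_dist_of_mem_segment hz, mul_add]
    exact (abs_sub_le _ _ _).trans (add_le_add a b)
  have A : ∀ x y, x ∈ U → y ∉ U → |f x - f y| ≤ L * dist x y := by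
    intro x y hx hy
    obtain ⟨z, z1, z2, z3⟩ := exit_pt hU hx
      (fun h => hy (connectedComponentIn_subset _ _ h) : y ∉ comp U x)
    exact tri x y z z1 (h2 x hx z z2) (h1 z y z3 hy)
  have B : ∀ x y, x ∉ U → |f x - f y| ≤ L * dist x y := by
    intro x y hx
    by_cases hy : y ∈ U
    · rw [abs_sub_comm, dist_comm]; exact A y x hy hx
    · exact h1 x y hx hy
  by_cases hx : x ∈ U
  · by_cases hy : y ∈ comp U x
    · exact h2 x hx y (subset_closure hy)
    · obtain ⟨z, z1, z2, z3⟩ := exit_pt hU hx hy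
      exact tri x y z z1 (h2 x hx z z2) (B z y z3)
  · exact B x y hx

theorem exists_step (hb : S_block) (hΩ : Bornology.IsBounded Ω) (T : Stage D Ω) {δ : ℝ}
    (hδ : 0 < δ) : ∃ T' : Stage D Ω, Step T T' δ := by
  classical
  have hq := D.hq1
  have hq0 := D.hq0
  let d : S → ℝ := fun s => min δ ((1 - D.q) / 2) / (1 + ‖D.a s‖)
  have hm : 0 < min δ ((1 - D.q) / 2) := lt_min hδ (by linarith)
  have hd0 : ∀ s, 0 < d s := fun s => div_pos hm (by positivity)
  have hd1 : ∀ s, d s ≤ min δ ((1 - D.q) / 2) := fun s =>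
    div_le_self hm.le (by linarith [norm_nonneg (D.a s)])
  have hd2 : ∀ s r, |D.a s r| * d s ≤ δ := by
    intro s r
    have h1 : |D.a s r| ≤ 1 + ‖D.a s‖ := by
      have := norm_le_pi_norm (D.a s) r
      rw [Real.norm_eq_abs] at this
      linarith
    calc |D.a s r| * d s ≤ (1 + ‖D.a s‖) * d s := mul_le_mul_of_nonneg_right h1 (hd0 s).le
      _ = min δ ((1 - D.q) / 2) := by
        have : (1 + ‖D.a s‖) ≠ 0 := by positivity
        simp only [d]; field_simp
      _ ≤ δ := min_le_left _ _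
  have hex : ∀ (O : Set Pt) (s : S), ∃ (σ : Pt → ℝ) (V : Set Pt) (c : Pt → Fin 4),
      (IsOpen O → O ⊆ Ω → Blk O (D.l s) (D.ε s) (d s) (D.n s) σ V c) := by
    intro O s
    by_cases h : IsOpen O ∧ O ⊆ Ω
    · obtain ⟨σ, V, c, hB⟩ := exists_blk hb h.1 (hΩ.subset h.2) (D.hl0 s) (D.hl1 s) (D.hε s)
        (hd0 s) (D.hn s)
      exact ⟨σ, V, c, fun _ _ => hB⟩
    · exact ⟨0, ∅, 0, fun a b => (h ⟨a, b⟩).elim⟩
  choose σ V c hB0 using hex
  have hB : ∀ x s, Blk (comp T.U x) (D.l s) (D.ε s) (d s) (D.n s) (σ (comp T.U x) s)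
      (V (comp T.U x) s) (c (comp T.U x) s) := fun x s =>
    hB0 _ s (comp_open T.hopen x) ((connectedComponentIn_subset _ _).trans T.hU)
  let W' : Pt → ι → ℝ := fun x r => T.W x r + D.a (T.st x) r * σ (comp T.U x) (T.st x) x
  let U' : Set Pt := {x | x ∈ V (comp T.U x) (T.st x)}
  let st' : Pt → S := fun x => D.nx (T.st x) (c (comp T.U x) (T.st x) x)
  have hsub : U' ⊆ T.U := fun x hx => connectedComponentIn_subset _ _ ((hB x _).sub hx)
  have hcomp : ∀ x y, y ∈ comp T.U x → comp T.U y = comp T.U x :=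
    fun x y hy => (connectedComponentIn_eq hy).symm
  have hst : ∀ x ∈ T.U, ∀ y ∈ comp T.U x, T.st y = T.st x := fun x hx y hy => (T.hloc x hx y hy).1
  have hmem : ∀ x ∈ T.U, ∀ y ∈ comp T.U x, (y ∈ U' ↔ y ∈ V (comp T.U x) (T.st x)) := by
    intro x hx y hy
    show y ∈ V (comp T.U y) (T.st y) ↔ _
    rw [hcomp x y hy, hst x hx y hy]
  have hW : ∀ x ∈ T.U, ∀ y ∈ comp T.U x, ∀ r,
      W' y r = T.W y r + D.a (T.st x) r * σ (comp T.U x) (T.st x) y := by
    intro x hx y hy r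
    show T.W y r + D.a (T.st y) r * σ (comp T.U y) (T.st y) y = _
    rw [hcomp x y hy, hst x hx y hy]
  have hS : ∀ x ∈ T.U, ∀ y ∈ comp T.U x, st' y = D.nx (T.st x) (c (comp T.U x) (T.st x) y) := by
    intro x hx y hy
    show D.nx (T.st y) (c (comp T.U y) (T.st y) y) = _
    rw [hcomp x y hy, hst x hx y hy]
  have hoff : ∀ x, x ∉ T.U → W' x = T.W x := by
    intro x hx
    funext r
    show T.W x r + D.a (T.st x) r * σ (comp T.U x) (T.st x) x = _
    rw [(hB x _).zero x fun h => hx (connectedComponentIn_subset _ _ h), mul_zero, add_zero]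
  have hcV : ∀ x ∈ U', comp U' x ⊆ V (comp T.U x) (T.st x) := by
    intro x hx y hy
    exact (hmem x (hsub hx) y (connectedComponentIn_mono _ hsub hy)).1
      (connectedComponentIn_subset _ _ hy)
  have hloc' := fun x (hx : x ∈ U') => (hB x (T.st x)).loc x hx (comp U' x)
    isPreconnected_connectedComponentIn (mem_connectedComponentIn hx) (hcV x hx)
  have hint : ∀ (φ : S → S → ℝ) (M : ℝ), 0 ≤ M → (∀ s t, 0 ≤ φ s t) →
      (∀ s, φ s (D.nx s 2) ≤ D.ψ s) → (∀ s, φ s (D.nx s 3) ≤ D.ψ s) →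
      (∀ s, D.l s * φ s (D.nx s 0) + (1 - D.l s) * φ s (D.nx s 1) + d s * D.ψ s ≤ M * D.ψ s) →
      ∫⁻ x in Ω, ENNReal.ofReal (φ (T.st x) (st' x)) ≤
        ENNReal.ofReal M * ∫⁻ x in Ω, ENNReal.ofReal (D.ψ (T.st x)) := by
    intro φ M hM h0 h2 h3 h01
    rw [← lintegral_const_mul' _ _ ENNReal.ofReal_ne_top, setLIntegral_congr T.aeq,
      setLIntegral_congr T.aeq]
    refine comp_le T.hopen _ _ fun x hx => ?_
    have hmeas := (comp_open T.hopen x).measurableSet
    have e1 : ∫⁻ y in comp T.U x, ENNReal.ofReal (φ (T.st y) (st' y)) =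
        ∫⁻ y in comp T.U x, ENNReal.ofReal
          (φ (T.st x) (D.nx (T.st x) (c (comp T.U x) (T.st x) y))) :=
      setLIntegral_congr_fun hmeas fun y hy => by
        simp only [hst x hx y hy, hS x hx y hy]
    have e2 : ∫⁻ y in comp T.U x, ENNReal.ofReal M * ENNReal.ofReal (D.ψ (T.st y)) =
        ∫⁻ _ in comp T.U x, ENNReal.ofReal (M * D.ψ (T.st x)) :=
      setLIntegral_congr_fun hmeas fun y hy => by
        simp only [hst x hx y hy, ENNReal.ofReal_mul hM]
    rw [e1, e2, setLIntegral_const]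
    exact (hB x (T.st x)).int (fun k => φ (T.st x) (D.nx (T.st x) k)) _ (D.ψ (T.st x))
      (fun k => h0 _ _) (h2 _) (h3 _) (h01 _)
  refine ⟨⟨W', U', st', ?_, hsub.trans T.hU, ?_, ?_, ?_⟩, hsub, hoff, ?_, ?_, ?_, ?_, ?_⟩
  · refine isOpen_iff_forall_mem_open.2 fun x hx => ⟨V (comp T.U x) (T.st x), ?_,
      (hB x _).isOpen, hx⟩
    intro y hy
    exact (hmem x (hsub hx) y ((hB x _).sub hy)).2 hy
  · have h1 : ∫⁻ y in T.U, (U'ᶜ).indicator (1 : Pt → ℝ≥0∞) y ≤ ∫⁻ _ in T.U, 0 := by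
      refine comp_le T.hopen _ _ fun x hx => ?_
      have hae : ∀ᵐ y ∂(volume.restrict (comp T.U x)), (U'ᶜ).indicator (1 : Pt → ℝ≥0∞) y = 0 := by
        rw [ae_restrict_iff' (comp_open T.hopen x).measurableSet]
        refine (measure_eq_zero_iff_ae_notMem.1 (hB x (T.st x)).null).mono fun y hy hy' => ?_
        have : y ∈ U' := (hmem x hx y hy').2 (by by_contra h; exact hy ⟨hy', h⟩)
        simp [this]
      exact (lintegral_congr_ae hae).le
    have hU'o : IsOpen U' := by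
      refine isOpen_iff_forall_mem_open.2 fun x hx => ⟨V (comp T.U x) (T.st x), ?_,
        (hB x _).isOpen, hx⟩
      intro y hy
      exact (hmem x (hsub hx) y ((hB x _).sub hy)).2 hy
    rw [lintegral_indicator_one hU'o.measurableSet.compl, lintegral_zero,
      Measure.restrict_apply hU'o.measurableSet.compl] at h1
    refine measure_mono_null (t := (Ω \ T.U) ∪ (U'ᶜ ∩ T.U)) ?_
      (measure_union_null T.hnull (le_antisymm h1 zero_le))
    intro y hy
    by_cases h : y ∈ T.U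
    · exact Or.inr ⟨hy.2, h⟩
    · exact Or.inl ⟨hy.1, h⟩
  · intro r
    refine glue_lip T.hopen (fun x => W' x r) _ ?_ ?_
    · intro x y hx hy
      simp only [hoff x hx, hoff y hy]
      exact T.hlip r x y
    · intro x hx z hz
      have e : ∀ z ∈ closure (comp T.U x), W' z r = T.W x r - ∑ j, D.val (T.st x) r j * x j +
          (∑ j, D.val (T.st x) r j * z j + D.a (T.st x) r * σ (comp T.U x) (T.st x) z) := by
        intro z hz
        have h1 := T.clos hx hz r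
        simp only [mul_sub, Finset.sum_sub_distrib] at h1
        by_cases hzU : z ∈ T.U
        · rw [hW x hx z (closure_comp hz hzU) r, h1]; ring
        · rw [hoff z hzU, (hB x _).zero z fun h => hzU (connectedComponentIn_subset _ _ h), h1]
          ring
      have := (hB x (T.st x)).lip (D.val (T.st x) r) (D.a (T.st x) r) D.C (D.hC _ r)
        (fun k j => by rw [← D.hval]; exact D.hC _ _ _) x z
      rw [e x (subset_closure (mem_connectedComponentIn hx)), e z hz, add_sub_add_left_eq_sub]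
      exact this
  · intro x hx y hy
    obtain ⟨-, h2, h3⟩ := hloc' x hx y hy
    have hy' : y ∈ comp T.U x := connectedComponentIn_mono _ hsub hy
    refine ⟨by rw [hS x (hsub hx) y hy', h2], fun r => ?_⟩
    rw [hW x (hsub hx) y hy' r, h3, (T.hloc x (hsub hx) y hy').2 r]
    simp only [W', st', D.hval, Fin.sum_univ_two]
    ring
  · intro x r
    show |T.W x r + D.a (T.st x) r * σ (comp T.U x) (T.st x) x - T.W x r| ≤ δ
    rw [add_sub_cancel_left, abs_mul]
    exact (mul_le_mul_of_nonneg_left ((hB x _).bd x) (abs_nonneg _)).trans (hd2 _ r)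
  · intro x hx y hy
    exact Metric.ball_subset_ball ((hd1 _).trans (min_le_left _ _)) (hloc' x hx y hy).1
  · refine hint (fun _ t => D.ψ t) _ (by linarith) (fun _ t => (D.hψ t).1.le) D.hψ2 D.hψ3 ?_
    intro s
    have h1 := D.hψ01 s
    have h2 : d s * D.ψ s ≤ (1 - D.q) / 2 * D.ψ s :=
      mul_le_mul_of_nonneg_right ((hd1 s).trans (min_le_right _ _)) (D.hψ s).1.le
    linarith
  · refine hint (fun s t => ‖D.val t - D.val s‖) _ (by linarith [D.hC0])
      (fun _ _ => norm_nonneg _) D.hd2 D.hd3 ?_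
    intro s
    have h1 := D.hd0 s
    have h2 := D.hd1 s
    have h3 : d s * D.ψ s ≤ 1 * D.ψ s :=
      mul_le_mul_of_nonneg_right (((hd1 s).trans (min_le_right _ _)).trans (by linarith))
        (D.hψ s).1.le
    linarith
  · intro x hx k hk
    have hne := (hB x (T.st x)).ne ⟨x, mem_connectedComponentIn hx⟩
    have : ∃ y ∈ V (comp T.U x) (T.st x), c (comp T.U x) (T.st x) y = k := by
      rcases hk with rfl | rfl
      · exact hne.1
      · exact hne.2
    obtain ⟨y, hy, hc⟩ := this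
    have hy' := (hB x _).sub hy
    exact ⟨y, (hmem x hx y hy').2 hy, hy', by
      show st' y = _
      rw [hS x hx y hy', hc]⟩

theorem exists_stage (hΩ : IsOpen Ω) (s : S) : Nonempty (Stage D Ω) := by
  refine ⟨⟨fun x r => ∑ j, D.val s r j * x j, Ω, fun _ => s, hΩ, subset_rfl, by simp, ?_, ?_⟩⟩
  · intro r x y
    have h : ∀ j, |D.val s r j * (x j - y j)| ≤ D.C * dist x y := by
      intro j
      rw [abs_mul]
      refine mul_le_mul (D.hC s r j) ?_ (abs_nonneg _) D.hC0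
      have := PiLp.dist_apply_le x y j
      rwa [Real.dist_eq] at this
    have h0 := h 0
    have h1 := h 1
    simp only [Fin.sum_univ_two]
    rw [abs_le] at h0 h1 ⊢
    constructor <;> nlinarith [h0.1, h0.2, h1.1, h1.2]
  · intro x _ y _
    refine ⟨rfl, fun r => ?_⟩
    simp only [Fin.sum_univ_two]
    ring

theorem exists_seq (hb : S_block) (hΩ : IsOpen Ω) (hB : Bornology.IsBounded Ω) (s : S) :
    ∃ T : ℕ → Stage D Ω, ∀ k, Step (T k) (T (k + 1)) (1 / 2 / 2 ^ k) := by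
  obtain ⟨T0⟩ := exists_stage (D := D) hΩ s
  have h : ∀ (k : ℕ) (T : Stage D Ω), ∃ T' : Stage D Ω, Step T T' (1 / 2 / 2 ^ k) :=
    fun k T => exists_step hb hB T (by positivity)
  choose f hf using h
  exact ⟨fun k => Nat.rec T0 f k, fun k => hf k _⟩

end Pool.Agent.H982Z.Ci
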